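import Pool.Agent.Q104.VA.Pair
import Pool.Agent.Q104.VA.Compat

/-!
# Virtually abelian images of amalgams of virtually abelian groups over virtually cyclic subgroups

Let `G₁`, `G₂` be finitely generated virtually abelian groups and `G₀` a virtually cyclic group with
injective homomorphisms `G₀ → G₁` and `G₀ → G₂`. We show that there are a finitely generated virtually
abelian group `E` and a homomorphism `ν` from the amalgamated free product of `G₁` and `G₂` along `G₀`
to `E` which is injective on `G₁` and on `G₂` and such that `ν(G₁) ∩ ν(G₂)` is virtually cyclic.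

Outline: after passing to suitable free abelian normal subgroups `A` and `B` of finite index with
`A ∩ G₀ = B ∩ G₀`, both groups act on finite sets `X = G₁ / A` and `Y = G₂ / B` and, by coinduction,
on lattices of functions on them. If `v` and `w` are the vectors which belong to the generator of
`A ∩ G₀ = B ∩ G₀`, then `G₁` acts on the tensor product of the two lattices by the given affine action
on `U ⊗ w` and `G₂` by the given affine action on `v ⊗ W`; a permutation of `X × Y`, which exchanges the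
two actions of `G₀`, and an averaging argument make the two actions of `G₀` equal.
-/

set_option autoImplicit false

namespace Pool.Agent.Results.MP_f748d5_al.AffineImage

universe u

/-- A group is virtually cyclic if it has a cyclic subgroup of finite index (finite groups count as
virtually cyclic). -/
def VirtuallyCyclic (G : Type u) [Group G] : Prop := ∃ g : G, (Subgroup.zpowers g).FiniteIndex

/-- A group is virtually abelian if it has an abelian subgroup of finite index. -/
def VirtuallyAbelian (G : Type u) [Group G] : Prop :=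
  ∃ A : Subgroup G, A.FiniteIndex ∧ ∀ a ∈ A, ∀ b ∈ A, a * b = b * a

section

variable {G₀ G₁ G₂ : Type u} [Group G₀] [Group G₁] [Group G₂] (i₁ : G₀ →* G₁) (i₂ : G₀ →* G₂)

/-- The amalgamated free product `G₁ *_{G₀} G₂`: the quotient of the free product of `G₁` and `G₂` by
the normal closure of the elements `i₁(c) i₂(c)⁻¹`. -/
abbrev Amalgam : Type u :=
  Monoid.Coprod G₁ G₂ ⧸ Subgroup.normalClosure
    (Set.range fun c : G₀ => (Monoid.Coprod.inl (i₁ c) * (Monoid.Coprod.inr (i₂ c))⁻¹ :
      Monoid.Coprod G₁ G₂))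

/-- The natural homomorphism `G₁ → G₁ *_{G₀} G₂`. -/
def ofLeft : G₁ →* Amalgam i₁ i₂ := (QuotientGroup.mk' _).comp Monoid.Coprod.inl

/-- The natural homomorphism `G₂ → G₁ *_{G₀} G₂`. -/
def ofRight : G₂ →* Amalgam i₁ i₂ := (QuotientGroup.mk' _).comp Monoid.Coprod.inr

end

theorem result {G₀ G₁ G₂ : Type u} [Group G₀] [Group G₁] [Group G₂]
    -- `G₁` and `G₂` are finitely generated and virtually abelian
    [Group.FG G₁] [Group.FG G₂] (h₁ : VirtuallyAbelian G₁) (h₂ : VirtuallyAbelian G₂)
    -- `G₀` is virtually cyclic and embedded in both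
    (h₀ : VirtuallyCyclic G₀) (i₁ : G₀ →* G₁) (i₂ : G₀ →* G₂)
    (hi₁ : Function.Injective i₁) (hi₂ : Function.Injective i₂) :
    ∃ (E : Type u) (_ : Group E) (ν : Amalgam i₁ i₂ →* E), Group.FG E ∧ VirtuallyAbelian E ∧
      Function.Injective (ν.comp (ofLeft i₁ i₂)) ∧ Function.Injective (ν.comp (ofRight i₁ i₂)) ∧
      VirtuallyCyclic
        ((ν.comp (ofLeft i₁ i₂)).range ⊓ (ν.comp (ofRight i₁ i₂)).range : Subgroup E) := by
  classical
  -- the pair of homomorphisms
  have hgood : Pool.Agent.Q104.VA.Good i₁ i₂ := by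
    obtain ⟨A₂, hA₂, K, _, φ, hφ⟩ := Pool.Agent.Q104.VA.vz_of_fg (P := G₁) h₁
    obtain ⟨B₂, hB₂, L, _, ψ, hψ⟩ := Pool.Agent.Q104.VA.vz_of_fg (P := G₂) h₂
    obtain ⟨A, B, t, a1, a2, a3, b1, b2, b3, hA, hB⟩ :=
      Pool.Agent.Q104.VA.compat2 A₂ B₂ φ hφ ψ hψ i₁ hi₁ i₂ hi₂ h₀
    have hφ' : Function.Injective (φ.comp (Subgroup.inclusion a3)) :=
      hφ.comp (Subgroup.inclusion_injective a3)
    have hψ' : Function.Injective (ψ.comp (Subgroup.inclusion b3)) :=
      hψ.comp (Subgroup.inclusion_injective b3)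
    by_cases ht : t = 1
    · rw [ht, Subgroup.zpowers_one_eq_bot] at hA hB
      exact Pool.Agent.Q104.VA.good_finite A B _ _ hφ' hψ' i₁ i₂ hA hB
    · exact Pool.Agent.Q104.VA.good_infinite A B _ _ hφ' hψ' i₁ i₂ hi₁ hi₂ t ht hA hB
  obtain ⟨X, V, _, _, f, g, hfg, hf, hg, x, F, hcyc⟩ := hgood
  let S : Subgroup (Pool.Agent.Q104.VA.Mon X V) := f.range ⊔ g.range
  have hfS : ∀ p, f p ∈ S := fun p => (le_sup_left : f.range ≤ S) ⟨p, rfl⟩
  have hgS : ∀ q, g q ∈ S := fun q => (le_sup_right : g.range ≤ S) ⟨q, rfl⟩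
  let f' : G₁ →* S := f.codRestrict S hfS
  let g' : G₂ →* S := g.codRestrict S hgS
  let ν : Amalgam i₁ i₂ →* S := QuotientGroup.lift _ (Monoid.Coprod.lift f' g') (by
    refine Subgroup.normalClosure_le_normal ?_
    rintro _ ⟨c, rfl⟩
    show Monoid.Coprod.lift f' g' (Monoid.Coprod.inl (i₁ c) * (Monoid.Coprod.inr (i₂ c))⁻¹) = 1
    rw [map_mul, map_inv, Monoid.Coprod.lift_apply_inl, Monoid.Coprod.lift_apply_inr,
      mul_inv_eq_one]
    exact Subtype.ext (hfg c))
  have hν1 : ν.comp (ofLeft i₁ i₂) = f' := MonoidHom.ext fun _ => rfl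
  have hν2 : ν.comp (ofRight i₁ i₂) = g' := MonoidHom.ext fun _ => rfl
  refine ⟨S, inferInstance, ν, ?_, ?_, ?_, ?_, ?_⟩
  · rw [Group.fg_iff_subgroup_fg]
    exact Subgroup.FG.sup ((Group.fg_iff_subgroup_fg _).mp inferInstance)
      ((Group.fg_iff_subgroup_fg _).mp inferInstance)
  · refine ⟨(Pool.Agent.Q104.VA.Mon.toPerm.comp S.subtype).ker, Subgroup.finiteIndex_ker _, ?_⟩
    intro a ha b hb
    exact Subtype.ext (Pool.Agent.Q104.VA.Mon.comm_of_trivial a.1 b.1 ha hb)
  · rw [hν1]
    exact fun p q h => hf (congrArg Subtype.val h)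
  · rw [hν2]
    exact fun p q h => hg (congrArg Subtype.val h)
  · rw [hν1, hν2]
    let I : Subgroup S := f'.range ⊓ g'.range
    let π : I →* Equiv.Perm X := (Pool.Agent.Q104.VA.Mon.toPerm.comp S.subtype).comp I.subtype
    have hfin : π.ker.FiniteIndex := Subgroup.finiteIndex_ker π
    let ξ : π.ker →* Multiplicative ℤ :=
      { toFun := fun z => Multiplicative.ofAdd (F (z.1.1.1.v x))
        map_one' := by
          show Multiplicative.ofAdd (F 0) = 1
          rw [map_zero]
          rfl
        map_mul' := by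
          intro a b
          have ha : a.1.1.1.s = 1 := a.2
          show Multiplicative.ofAdd (F (a.1.1.1.v x + b.1.1.1.v (a.1.1.1.s⁻¹ x))) = _
          rw [ha, map_add]
          rfl }
    have hξ : Function.Injective ξ := by
      rw [injective_iff_map_eq_one]
      rintro ⟨⟨z, ⟨p, hp⟩, ⟨q, hq⟩⟩, hz⟩ h0
      have h1 : f p = z.1 := congrArg Subtype.val hp
      have h2 : g q = z.1 := congrArg Subtype.val hq
      have h3 : (f p).s = 1 := by rw [h1]; exact hz
      have h4 : F ((f p).v x) = 0 := by rw [h1]; exact h0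
      have h5 := hcyc p q (h1.trans h2.symm) h3 h4
      rw [h1] at h5
      apply Subtype.ext
      apply Subtype.ext
      exact Subtype.ext h5
    have hic : IsCyclic π.ker := isCyclic_of_injective ξ hξ
    obtain ⟨z, hz⟩ := IsCyclic.exists_generator (α := π.ker)
    refine ⟨z.1, ?_⟩
    have hle : π.ker ≤ Subgroup.zpowers z.1 := by
      intro w hw
      obtain ⟨n, hn⟩ := Subgroup.mem_zpowers_iff.mp (hz ⟨w, hw⟩)
      exact Subgroup.mem_zpowers_iff.mpr ⟨n, congrArg Subtype.val hn⟩
    exact Subgroup.finiteIndex_of_le hle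

end Pool.Agent.Results.MP_f748d5_al.AffineImage
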